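import Pool.Agent.MWA.StmtsQ

/-!
# Row RQ5 of block MWA (period n version of RB5)
-/

namespace Pool.Agent.MWA.H92

open Pool.Agent.Helper14_MV Pool.Agent.Helper2_MV Pool.Agent.MVO Pool.Agent.MWL Pool.Agent.MWS
  Pool.Agent.MWA

theorem downQ (h1 : MWL.TrnStmt) (h4 : AbpStmt) (n : ℕ) (hn : 1 ≤ n) (θ : FIC) (hG : Gn n θ)
    (k : ℕ) (a : ℕ → ℕ) (t r : ℕ) (htr : t ≤ r) (hr : r ≤ k) (h : AbN n θ k a r) :
    AbN n θ k a t := by
  have h2 : AbN n θ k (ad n a r) t := by
    have h3 := (h4 n θ).1 0 2 k t r 0 (ad n a r) (by omega) hG htr hr (by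
      intro s hs
      simp only [ad]
      split_ifs <;> omega)
    simpa using h3
  exact ((h1 n (FC.ofFIC θ) k a t).1 (ad n a r) h).2 h2

theorem exPQ (k : ℕ) (b : ℕ → ℕ) (i : ℕ) (hd : 2 ≤ deg k b) (hl : Lst k b i) (hb : b i = 1) :
    ∃ p < i, 1 ≤ b p := by
  by_contra hcon
  push Not at hcon
  have h1 : deg k b = 1 := by
    unfold deg
    rw [Finset.sum_eq_single i]
    · exact hb
    · intro j hj hji
      rcases lt_or_gt_of_ne hji with h | h
      · have := hcon j h
        omega
      · exact hl.2.2 j h (by have := Finset.mem_range.1 hj; omega)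
    · intro h
      exact absurd (Finset.mem_range.2 (by have := hl.1; omega)) h
  omega

theorem useC5Q (h3 : UseStmt) (β : FIC) (hA : ClA β) (hC : C5f β) (k : ℕ) (b c : ℕ → ℕ)
    (p i : ℕ) (hpi : p < i) (hi : i ≤ k) (hbp : 1 ≤ b p) (hbi : 1 ≤ b i) (hcp : 2 ≤ c p)
    (hci : 2 ≤ c i) : Bt β k b c i := by
  refine (h3 β hA).1 1 1 2 2 k p i b c (by omega) (by omega) (by omega) (by omega) hC hpi.le
    hi ?_ ?_
  · intro t ht
    by_cases h1 : t = p
    · subst h1
      rw [if_pos rfl, if_neg (by omega)]
      exact hbp
    · rw [if_neg h1]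
      by_cases h2 : t = i
      · subst h2
        rw [if_pos rfl]
        omega
      · rw [if_neg h2]
        omega
  · intro t ht
    by_cases h1 : t = p
    · subst h1
      rw [if_pos rfl, if_neg (by omega)]
      exact hcp
    · rw [if_neg h1]
      by_cases h2 : t = i
      · subst h2
        rw [if_pos rfl]
        omega
      · rw [if_neg h2]
        omega

theorem largestQ (P : ℕ → Prop) (i s0 : ℕ) (h0 : s0 < i) (hP : P s0) :
    ∃ s, s < i ∧ P s ∧ ∀ r, s < r → r < i → ¬ P r := by
  classical
  refine ⟨Nat.findGreatest P (i - 1), ?_, Nat.findGreatest_spec (m := s0) (by omega) hP, ?_⟩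
  · have := Nat.findGreatest_le (P := P) (i - 1)
    omega
  · intro r hr hri
    exact Nat.findGreatest_is_greatest hr (by omega)

/-- the vector with `2 n` added in the blocks `p` and `i` is related -/
theorem bothQ (h1 : MWL.TrnStmt) (h2 : HapStmt) (h4 : AbpStmt) (n : ℕ) (θ : FIC)
    (hA : BsP n θ) (hG : Gn n θ) (k : ℕ) (a : ℕ → ℕ) (p i : ℕ) (hp : p < i) (hi : i ≤ k)
    (h : AbN n θ k a i) :
    L1 θ k a (fun r => a r + if r = p ∨ r = i then 2 * n else 0) := by
  have hn := hA.pos
  refine (h2 n θ hA.pos hA.ap).2 k a _ ?_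
  intro r hr
  by_cases hrp : r = p ∨ r = i
  · right
    refine ⟨?_, ?_, ?_⟩
    · simp only [if_pos hrp]
      omega
    · simp only [if_pos hrp]
      unfold Nat.ModEq
      rw [Nat.add_mul_mod_self_right]
    · rcases hrp with rfl | rfl
      · exact downQ h1 h4 n hn θ hG k a r i hp.le hi h
      · exact h
  · left
    simp only [if_neg hrp]
    omega

theorem rq5 (h1 : MWL.TrnStmt) (h2 : HapStmt) (h3 : UseStmt) (h4 : AbpStmt) (h5 : BtfStmt)
    (h6 : BtpStmt) (h7 : LgpStmt) (h8 : PpqStmt) (h9 : LspStmt) : Rq5Stmt := by
  intro n β hA hS θ hle hNC k a b i j hda hdb hla hlb hji hAj hnj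
  obtain ⟨hG, hJ0, hJ1, hP, hC⟩ := hS
  left
  have hn := hA.pos
  have hAθ : BsP n θ := hA.mono hle
  have hGθ : Gn n θ := AbN.mono hle hG
  have hi : i ≤ k := hla.1
  have hnai : ¬ AbN n β k a i := fun h => hnj (downQ h1 h4 n hn β hG k a j i hji hi h)
  have hai : a i = 1 := by
    have h0 := hla.2.1
    by_contra hne
    exact hnai ((h2 n β hn hA.ap).1 k a i hi (by omega))
  have hb0 := hlb.2.1
  by_cases hti : AbN n θ k a i
  · by_cases hb2 : 2 ≤ b i
    · have hBt : Bt θ k (ad n a i) b i :=
        (h6 θ hAθ.cl hAθ.r0).2.2 k (ad n a i) b i hi (by simp only [ad, if_true]; omega) hb2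
      exact (h5 θ k a (ad n a i) b b hti (RR.refl _)).2 i hBt
    · have hbi : b i = 1 := by omega
      obtain ⟨p, hp, hbp⟩ := exPQ k b i hdb hlb hbi
      have hLc := bothQ h1 h2 h4 n θ hAθ hGθ k a p i hp hi hti
      have hBt : Bt β k b (fun r => a r + if r = p ∨ r = i then 2 * n else 0) i :=
        useC5Q h3 β hA.cl hC k b _ p i hp hi hbp (by omega)
          (by simp only [true_or, if_true]; omega) (by simp only [or_true, if_true]; omega)
      have hBt' := (h6 θ hAθ.cl hAθ.r0).2.1 k b _ i (Bt.mono hle hBt)
      exact (h5 θ k a _ b b hLc (RR.refl _)).2 i hBt'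
  · have hji' : j < i := lt_of_le_of_ne hji (by rintro rfl; exact hti hAj)
    by_cases hbi : AbN n β k b i
    · obtain ⟨q, hq, haq⟩ := exPQ k a i hda hla hai
      have hLd := bothQ h1 h2 h4 n β hA hG k b q i hq hi hbi
      have hBt : Bt β k a (fun r => b r + if r = q ∨ r = i then 2 * n else 0) i :=
        useC5Q h3 β hA.cl hC k a _ q i hq hi haq (by omega)
          (by simp only [true_or, if_true]; omega) (by simp only [or_true, if_true]; omega)
      exact (h5 θ k a a b _ (RR.refl _) (L1.mono hle hLd)).2 i (Bt.mono hle hBt)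
    · have hbi1 : b i = 1 := by
        by_contra hne
        exact hbi ((h2 n β hn hA.ap).1 k b i hi (by omega))
      by_cases hr : ∃ r < i, AbN n θ k b r
      · obtain ⟨r, hr, hbr⟩ := hr
        exact h8 n β hA hP θ hle k a b i j r hla hlb hji' hr hAj hbr
      · exfalso
        push Not at hr
        obtain ⟨p, hp⟩ := h7 n θ hn hAθ.ap k b i 0 hdb hlb hbi1 (Or.inl rfl)
          (AbN.mono hle hJ0) hr (by omega)
        obtain ⟨s0, hs0, hs0'⟩ := h9 n β hA hJ0 θ hle k a b i j p hda hla hai hji' hAj hp
          (hr p hp.1)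
        obtain ⟨s, hs, hsA, hmax⟩ := largestQ (fun s => AbN n β k a s) i s0 hs0 hs0'
        have hsj : s < j := by
          by_contra hcon
          exact hnj (downQ h1 h4 n hn β hG k a j s (by omega) (by omega) hsA)
        have hz : ∀ r, s < r → r < i → a r = 0 := by
          intro r hsr hri
          by_contra hne
          apply hmax r hsr hri
          have h10 : AbN n β k (ad n a s) r := by
            have h11 := (h4 n β).2 1 1 1 k s r i 1 (ad n a s) (by omega) hJ1 hsr.le hri.le hi (by
              intro t ht
              simp only [ad]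
              by_cases e1 : t = s
              · subst e1
                rw [if_pos rfl, if_pos rfl, if_neg (by omega), if_neg (by omega)]
                omega
              · rw [if_neg e1, if_neg e1]
                by_cases e2 : t = r
                · subst e2
                  rw [if_pos rfl, if_neg (by omega)]
                  omega
                · rw [if_neg e2]
                  by_cases e3 : t = i
                  · subst e3
                    rw [if_pos rfl]
                    omega
                  · rw [if_neg e3]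
                    omega)
            simpa using h11
          exact ((h1 n (FC.ofFIC β) k a r).1 (ad n a s) hsA).2 h10
        obtain ⟨f, hf⟩ : ∃ f : ℕ → ℕ, ∀ r, f r = if j ≤ r ∧ r ≤ i then i else r := ⟨_, fun _ => rfl⟩
        have hfB : BMap k k f := by
          refine ⟨?_, ?_⟩
          · intro x y hxy hyk
            rw [hf, hf]
            split_ifs <;> omega
          · intro x hx
            rw [hf]
            split_ifs <;> omega
        have hfj : f j = i := by
          rw [hf, if_pos ⟨le_rfl, hji⟩]
        have hpsh : ∀ t ≤ k, psh k f a t = a t := by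
          intro t ht
          unfold psh
          have h12 : ∀ r ∈ Finset.range (k + 1), (if f r = t then a r else 0) =
              if r = t then a r else 0 := by
            intro r hr'
            by_cases hc : j ≤ r ∧ r ≤ i
            · by_cases hri : r = i
              · have : f r = r := by rw [hf, if_pos hc, hri]
                rw [this]
              · have h0 : a r = 0 := hz r (by omega) (by omega)
                rw [h0]
                simp
            · have : f r = r := by rw [hf, if_neg hc]
              rw [this]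
          rw [Finset.sum_congr rfl h12, Finset.sum_ite_eq' (Finset.range (k + 1)) t,
            if_pos (Finset.mem_range.2 (by omega))]
        have h13 := (h1 n (FC.ofFIC θ) k a j).2.2.2 k f hfB (by omega) hAj
        rw [hfj] at h13
        exact hti (((h1 n (FC.ofFIC θ) k (psh k f a) i).2.2.1 a hpsh).1 h13)

end Pool.Agent.MWA.H92
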